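import Pool.Agent.Run7.h211.EY.Dat

/-! The pairs with their certificates. -/

set_option autoImplicit false
set_option maxRecDepth 100000
set_option maxHeartbeats 4000000
open Finset

namespace Pool.Agent.Run7.h211.EY
open Pool.Agent.Run7.h211 Pool.Agent.H122R2.N6

/-- `A 0` and `B 6` -/
def f06 : Fm where
  s := s0
  c := c6
  cert := fun hE hK => PW.K00.ok.cert hE hK

/-- `A 0` and `B 7` -/
def f07 : Fm where
  s := s0
  c := c7
  cert := fun hE hK => PW.K01.ok.cert hE hK

/-- `A 0` and `B 9` -/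
def f09 : Fm where
  s := s0
  c := c9
  cert := fun hE hK => PW.K02.ok.cert hE hK

/-- `A 1` and `B 2` -/
def f12 : Fm where
  s := s1
  c := c2
  cert := fun hE hK => PW.K03.ok.cert hE hK

/-- `A 1` and `B 6` -/
def f16 : Fm where
  s := s1
  c := c6
  cert := fun hE hK => PW.K04.ok.cert hE hK

/-- `A 1` and `B 7` -/
def f17 : Fm where
  s := s1
  c := c7
  cert := fun hE hK => PW.K05.ok.cert hE hK

/-- `A 1` and `B 9` -/
def f19 : Fm where
  s := s1
  c := c9
  cert := fun hE hK => PW.K06.ok.cert hE hK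

/-- `A 2` and `B 7` -/
def f27 : Fm where
  s := s2
  c := c7
  cert := fun hE hK => PW.K07.ok.cert hE hK

/-- `A 2` and `B 9` -/
def f29 : Fm where
  s := s2
  c := c9
  cert := fun hE hK => PW.K08.ok.cert hE hK

/-- `A 3` and `B 6` -/
def f36 : Fm where
  s := s3
  c := c6
  cert := fun hE hK => PW.K09.ok.cert hE hK

/-- `A 3` and `B 7` -/
def f37 : Fm where
  s := s3
  c := c7
  cert := fun hE hK => PW.K10.ok.cert hE hK

/-- `A 3` and `B 9` -/
def f39 : Fm where
  s := s3
  c := c9
  cert := fun hE hK => PW.K11.ok.cert hE hK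

/-- `A 4` and `B 5` -/
def f45 : Fm where
  s := s4
  c := c5
  cert := fun hE hK => PW.K12.ok.cert hE hK

/-- `A 4` and `B 6` -/
def f46 : Fm where
  s := s4
  c := c6
  cert := fun hE hK => PW.K13.ok.cert hE hK

/-- `A 4` and `B 7` -/
def f47 : Fm where
  s := s4
  c := c7
  cert := fun hE hK => PW.K14.ok.cert hE hK

/-- `A 4` and `B 8` -/
def f48 : Fm where
  s := s4
  c := c8
  cert := fun hE hK => PW.K15.ok.cert hE hK

/-- `A 4` and `B 9` -/
def f49 : Fm where
  s := s4
  c := c9
  cert := fun hE hK => PW.K16.ok.cert hE hK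

/-- `A 5` and `B 6` -/
def f56 : Fm where
  s := s5
  c := c6
  cert := fun hE hK => PW.K17.ok.cert hE hK

/-- `A 5` and `B 7` -/
def f57 : Fm where
  s := s5
  c := c7
  cert := fun hE hK => PW.K18.ok.cert hE hK

/-- `A 5` and `B 9` -/
def f59 : Fm where
  s := s5
  c := c9
  cert := fun hE hK => PW.K19.ok.cert hE hK

/-- `A 6` and `B 3` -/
def f63 : Fm where
  s := s6
  c := c3
  cert := fun hE hK => PW.K20.ok.cert hE hK

/-- `A 6` and `B 4` -/
def f64 : Fm where
  s := s6
  c := c4
  cert := fun hE hK => PW.K21.ok.cert hE hK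

/-- `A 6` and `B 5` -/
def f65 : Fm where
  s := s6
  c := c5
  cert := fun hE hK => PW.K22.ok.cert hE hK

/-- `A 6` and `B 6` -/
def f66 : Fm where
  s := s6
  c := c6
  cert := fun hE hK => PW.cert_prs hE hK (96747, 78078) (by simp [PW.prs])

/-- `A 6` and `B 7` -/
def f67 : Fm where
  s := s6
  c := c7
  cert := fun hE hK => PW.cert_prs hE hK (96747, 97788) (by simp [PW.prs])

/-- `A 6` and `B 8` -/
def f68 : Fm where
  s := s6
  c := c8
  cert := fun hE hK => PW.K23.ok.cert hE hK

/-- `A 6` and `B 9` -/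
def f69 : Fm where
  s := s6
  c := c9
  cert := fun hE hK => PW.cert_prs hE hK (96747, 228027) (by simp [PW.prs])

/-- `A 7` and `B 7` -/
def f77 : Fm where
  s := s7
  c := c7
  cert := fun hE hK => PW.K24.ok.cert hE hK

/-- `A 7` and `B 9` -/
def f79 : Fm where
  s := s7
  c := c9
  cert := fun hE hK => PW.K25.ok.cert hE hK

/-- `A 8` and `B 6` -/
def f86 : Fm where
  s := s8
  c := c6
  cert := fun hE hK => PW.K26.ok.cert hE hK

/-- `A 8` and `B 7` -/
def f87 : Fm where
  s := s8
  c := c7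
  cert := fun hE hK => PW.K27.ok.cert hE hK

/-- `A 8` and `B 8` -/
def f88 : Fm where
  s := s8
  c := c8
  cert := fun hE hK => PW.K28.ok.cert hE hK

/-- `A 8` and `B 9` -/
def f89 : Fm where
  s := s8
  c := c9
  cert := fun hE hK => PW.cert_prs hE hK (120663, 228027) (by simp [PW.prs])

end Pool.Agent.Run7.h211.EY
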