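import Pool.Agent.Run7.h211.EY.Exa
import Pool.Agent.Y878.EX.Co

/-! The exact result for 3-graphs. -/

set_option autoImplicit false
set_option maxRecDepth 100000
set_option maxHeartbeats 4000000
open Finset
open scoped Classical

namespace Pool.Agent.Run7.h211.EY
open Pool.Agent.TH773 Pool.Agent.TH773.ST Pool.Agent.H122R2.N6 Pool.Agent.H37R3.Pen
open Pool.Agent.H37R3.Cop Pool.Agent.H37R3.CopL Pool.Agent.Y878.EX Pool.Agent.TH773.Cov

section
variable {n : ℕ}

/-- the list of two 3-graphs which belongs to the masks of `i` -/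
structure Lst (i : Fm) (F F' : Finset (Finset (Fin 6))) : Prop where
  s : FA.Msk i.s.m F
  c : FA.Msk i.c.m F'

theorem img' {k n : ℕ} (f : Fin k → Fin n) (t : Finset (Fin k)) :
    @Finset.image _ _ (fun a b => Classical.propDecidable (a = b)) f t =
      @Finset.image _ _ (instDecidableEqFin n) f t := by
  ext v
  simp only [mem_image]

/-- 3-graphs of the classes -/
theorem cl_of {H : Finset (Finset (Fin n))} (hH : ∀ e ∈ H, e.card = 3) (hK : Turan34.K43Free H)
    {i : Fm} {F F' : Finset (Finset (Fin 6))} (hi : Lst i F F')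
    (hc : Turan34.copies [F, F'] H = 0) : Cl i (tri H) where
  sy := tri_sy H
  k4 := tri_noK4 hH hK
  dg := by
    intro a b
    rcases (tri_sy H).b a a b with h | h
    · exact h
    · exact absurd rfl (distinct_of_mem hH (tri_one.mp h)).1
  nn := by
    rintro x hx ⟨p, hp, m, hm, hcp⟩
    have hinj : Function.Injective (x ∘ p) := hx.comp hp
    obtain ⟨X, hX, hmX⟩ : ∃ X ∈ [F, F'], FA.Msk m X := by
      simp only [Fm.L, List.mem_cons, List.not_mem_nil, or_false] at hm
      rcases hm with rfl | rfl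
      · exact ⟨F, by simp, hi.s⟩
      · exact ⟨F', by simp, hi.c⟩
    have h1 := FA.induces_of_inj hmX hinj hcp
    have h2 : univ.image (x ∘ p) ∈ (univ : Finset (Finset (Fin n))).filter fun S =>
        ∃ X ∈ [F, F'], Turan34.Induces X H S := by
      refine mem_filter.mpr ⟨mem_univ _, X, hX, ?_⟩
      obtain ⟨f, hf, hfS, hfe⟩ := h1
      refine ⟨f, hf, ?_, ?_⟩
      · rw [← img', hfS]
        exact img' _ _
      · intro t ht
        rw [← img', hfe t ht]
    unfold Turan34.copies at hc
    rw [card_eq_zero] at hc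
    have h3 : univ.image (x ∘ p) ∈ (∅ : Finset (Finset (Fin n))) := by
      rw [← hc]
      convert h2
    exact absurd h3 (notMem_empty _)

/-- a 3-graph whose mask has no colouring is not induced in Turán's construction -/
theorem turan_none' {m : ℕ} {F : Finset (Finset (Fin 6))} (hm : FA.Msk m F)
    (hn : Pool.Agent.Y878.EX.nocol m = true) (g : Fin n → Fin 3) :
    Turan34.copies [F] (Turan34.turan g) = 0 := by
  unfold Turan34.copies
  rw [card_eq_zero, filter_eq_empty_iff]
  rintro S - ⟨X, hX, f, hf, -, hfe⟩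
  rw [List.mem_singleton] at hX
  subst hX
  have hc : Copy Rf m (g ∘ f) := by
    intro i j k hij hjk
    have hc3 : ({i, j, k} : Finset (Fin 6)).card = 3 := by
      rw [card_insert_of_notMem, card_insert_of_notMem, card_singleton]
      · simpa using hjk.ne
      · simpa using ⟨hij.ne, (hij.trans hjk).ne⟩
    have h1 := hfe _ hc3
    rw [Pool.Agent.Y878.EX.mem_turan_comp g f hf,
      Pool.Agent.Y878.EX.mem_turan hij.ne (hij.trans hjk).ne hjk.ne, ← hm i j k hij hjk] at h1
    have hb : bt m (ti i j k) = 0 ∨ bt m (ti i j k) = 1 := by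
      unfold bt
      exact Nat.mod_two_eq_zero_or_one _
    rcases Rf_sy.b ((g ∘ f) i) ((g ∘ f) j) ((g ∘ f) k) with h2 | h2 <;>
      rcases hb with h4 | h4 <;> rw [h2, h4] at h1 ⊢ <;> simp at h1
  have h1 := b3_true (b3_true (b3_true (b3_true (b3_true (b3_true hn ((g ∘ f) 0)) ((g ∘ f) 1))
    ((g ∘ f) 2)) ((g ∘ f) 3)) ((g ∘ f) 4)) ((g ∘ f) 5)
  rw [Pool.Agent.Y878.EX.cp_of_copy hc] at h1
  exact absurd h1 (by decide)

/-- the exact result -/
theorem exact_H' {i : Fm} {F F' : Finset (Finset (Fin 6))} (hi : Lst i F F') (hn : 10 ^ 140 ≤ n)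
    {H : Finset (Finset (Fin n))} (hH : ∀ e ∈ H, e.card = 3) (hK : Turan34.K43Free H)
    (hc : Turan34.copies [F, F'] H = 0) : 6 * H.card ≤ T6 n ∧
      (6 * H.card = T6 n → ∃ g : Fin n → Fin 3,
        near (Pt g 0).card (Pt g 1).card (Pt g 2).card ∧ H = Turan34.turan g) := by
  have hn' : 10 ^ 140 ≤ Fintype.card (Fin n) := by rw [Fintype.card_fin]; exact hn
  have h16 : 16 ≤ n := le_trans (by norm_num) hn
  have hcl := cl_of hH hK hi hc
  have key : T6 n ≤ 6 * H.card → ∃ g : Fin n → Fin 3, 6 * H.card =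
      F6 (Pt g 0).card (Pt g 1).card (Pt g 2).card ∧ H = Turan34.turan g := by
    intro h
    obtain ⟨g, hg⟩ := exact hcl hn' (by rw [S3_tri hH, Fintype.card_fin]; exact h)
    have hHg : H = Turan34.turan g := by
      refine eq_of_tri hH (fun e he => Pool.Agent.Y878.EX.turan_card he) fun x y z => ?_
      rw [hg, tri_turan]
    refine ⟨g, ?_, hHg⟩
    nth_rewrite 1 [hHg]
    exact turan_card6 g
  have hsz : ∀ g : Fin n → Fin 3, (Pt g 0).card + (Pt g 1).card + (Pt g 2).card = n := by
    intro g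
    rw [Pt_add, Fintype.card_fin]
  refine ⟨?_, fun heq => ?_⟩
  · by_contra hlt
    push Not at hlt
    obtain ⟨g, hg, -⟩ := key hlt.le
    have := (F6_le (hsz g) h16).1
    rw [hg] at hlt
    unfold T6 at hlt
    omega
  · obtain ⟨g, hg, hHg⟩ := key heq.ge
    refine ⟨g, ((F6_le (hsz g) h16).2).mp ?_, hHg⟩
    rw [← hg, heq]
    rfl

/-- the bound and the extremal 3-graphs in the language of coverings -/
theorem main' {i : Fm} {F F' : Finset (Finset (Fin 6))} (hi : Lst i F F')
    {Y : List (Finset (Finset (Fin 6)))} (hY : Compl [F, F'] Y)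
    (hn : 10 ^ 140 ≤ n) {G : Finset (Finset (Fin n))}
    (hG : ∀ e ∈ G, e.card = 3) (hc : CoversQuadruples G) (ha : Avoids Y G) :
    f n ≤ G.card ∧ (G.card = f n → ∃ g : Fin n → Fin 3, Cov.Balanced g ∧ G = turanC g) := by
  have h1 := exact_H' hi hn (H := (univ : Finset (Fin n)).powersetCard 3 \ G)
    (fun e he => (mem_powersetCard.mp (mem_sdiff.mp he).1).2) (compl_free hG hc)
    ((avoids_iff hY G).mp ha)
  have h2 := card_compl hG
  have h3 := f_eq n (le_trans (by norm_num) hn)
  unfold T6 at h1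
  refine ⟨by omega, fun heq => ?_⟩
  obtain ⟨g, hg1, hg2⟩ := h1.2 (by omega)
  refine ⟨fun v => -g v, ?_, ?_⟩
  · rw [balanced_iff]
    simpa only [neg_neg] using hg1
  · refine compl_inj hG (fun e he => turanC_card he) ?_
    rw [hg2, compl_turanC]
    simp only [neg_neg]

end
end Pool.Agent.Run7.h211.EY
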