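import Pool.Agent.Y878.EX.Num
import Pool.Agent.Y878.EX.Ful
import Pool.Agent.Run7.h211.PW.Com
import Pool.Agent.TH773.FA.Cpy

/-! Classes of 3-graphs without induced copies (with six different vertices) of two structures. -/

set_option autoImplicit false
set_option maxRecDepth 100000
set_option maxHeartbeats 4000000
open Finset
open scoped Classical

namespace Pool.Agent.Run7.h211.EY
open Pool.Agent.TH773 Pool.Agent.TH773.ST Pool.Agent.H122R2.N6 Pool.Agent.H37R3.Pen
open Pool.Agent.H37R3.Cop Pool.Agent.H37R3.CopL Pool.Agent.Y878.EX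

/-- a structure which arises at a pair of vertices of one part -/
structure SD where
  m : ℕ
  code : ℕ
  p : ℕ
  K : Fin 4 → Fin 3
  W : Fin 4 → ℕ
  no : nocol m = true
  iso : isoB code m p = true
  k : ∀ (t : Fin 3) (a b c : Fin 6), a < b → b < c →
    bt code (ti a b c) = if a = 0 ∧ b = 1 then (![9, 9, W 0, W 1, W 2, W 3] : Fin 6 → ℕ) c
      else Rf ((![t, t, K 0 + t, K 1 + t, K 2 + t, K 3 + t] : Fin 6 → Fin 3) a)
        ((![t, t, K 0 + t, K 1 + t, K 2 + t, K 3 + t] : Fin 6 → Fin 3) b)
        ((![t, t, K 0 + t, K 1 + t, K 2 + t, K 3 + t] : Fin 6 → Fin 3) c)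
  o : ∀ j, (K j = 0 ∧ W j = 1) ∨ (K j = 1 ∧ W j = 0) ∨ (K j = 2 ∧ W j = 0)

/-- a structure which arises at a pair of vertices of consecutive parts -/
structure CD where
  m : ℕ
  code : ℕ
  p : ℕ
  K : Fin 4 → Fin 3
  W : Fin 4 → ℕ
  no : nocol m = true
  iso : isoB code m p = true
  k : ∀ (t : Fin 3) (a b c : Fin 6), a < b → b < c →
    bt code (ti a b c) = if a = 0 ∧ b = 1 then (![9, 9, W 0, W 1, W 2, W 3] : Fin 6 → ℕ) c
      else Rf ((![t, t + 1, K 0 + t, K 1 + t, K 2 + t, K 3 + t] : Fin 6 → Fin 3) a)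
        ((![t, t + 1, K 0 + t, K 1 + t, K 2 + t, K 3 + t] : Fin 6 → Fin 3) b)
        ((![t, t + 1, K 0 + t, K 1 + t, K 2 + t, K 3 + t] : Fin 6 → Fin 3) c)
  o : ∀ j, (K j = 0 ∧ W j = 1) ∨ (K j = 1 ∧ W j = 1) ∨ (K j = 2 ∧ W j = 0)

/-- two structures with a certificate -/
structure Fm where
  s : SD
  c : CD
  cert : ∀ {V : Type} [Fintype V] {E : V → V → V → ℕ}, Sy E → NoK4 E → PW.Cert V E [s.m, c.m]

/-- the masks -/
def Fm.L (i : Fm) : List ℕ := [i.s.m, i.c.m]

/-- the class: `K_4^3`-free, without listed structures with six different vertices -/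
structure Cl (i : Fm) {V : Type} (E : V → V → V → ℕ) : Prop where
  sy : Sy E
  k4 : NoK4 E
  dg : ∀ a b, E a a b = 0
  nn : ∀ x, Function.Injective x → ¬ RelL E i.L x

section
variable {V : Type} [Fintype V] {E : V → V → V → ℕ} {g : V → Fin 3}

theorem card_val (a : V) : ((univ : Finset (Fin 1 → V)).filter fun t => t 0 = a).card ≤ 1 := by
  refine card_le_one.mpr ?_
  intro s hs t ht
  funext k
  fin_cases k
  exact (mem_filter.mp hs).2.trans (mem_filter.mp ht).2.symm

theorem card_two : ((univ : Finset (Fin 2 → V)).filter fun t => t 0 = t 1).card ≤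
    Fintype.card V := by
  rw [← card_univ (α := V)]
  refine card_le_card_of_injOn (fun t => t 0) (fun _ _ => mem_univ _) ?_
  intro s hs t ht h
  have h1 := (mem_filter.mp (mem_coe.mp hs)).2
  have h2 := (mem_filter.mp (mem_coe.mp ht)).2
  funext k
  fin_cases k
  · exact h
  · exact h1.symm.trans (h.trans h2)

/-- four-tuples which are not distinct together with `x` and `y` -/
theorem card_ninj {x y : V} (hxy : x ≠ y) :
    ((univ : Finset (Fin 4 → V)).filter fun w => ¬ Function.Injective (X6v x y w)).card ≤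
      14 * Fintype.card V ^ 3 := by
  let P : Finset (Fin 4 × Fin 4) := univ.filter fun p => p.1 < p.2
  have hP : P.card = 6 := by decide
  let F : Fin 4 × Fin 4 → Finset (Fin 4 → V) := fun p => univ.filter fun w => w p.1 = w p.2
  let G : V → Fin 4 → Finset (Fin 4 → V) := fun a q => univ.filter fun w => w q = a
  have hF : ∀ p ∈ P, (F p).card ≤ Fintype.card V ^ 3 := by
    intro p hp
    have hlt : p.1 < p.2 := (mem_filter.mp hp).2
    have he : Function.Injective ![p.1, p.2] := by
      intro i j h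
      fin_cases i <;> fin_cases j
      · rfl
      · exact absurd h hlt.ne
      · exact absurd h hlt.ne'
      · rfl
    have h1 := card_pullS (V := V) ![p.1, p.2] he (F p)
      ((univ : Finset (Fin 2 → V)).filter fun t => t 0 = t 1)
      (fun w hw => mem_filter.mpr ⟨mem_univ _, (mem_filter.mp hw).2⟩)
    refine h1.trans ?_
    calc _ ≤ Fintype.card V * Fintype.card V ^ (4 - 2) := Nat.mul_le_mul_right _ card_two
      _ = Fintype.card V ^ 3 := by ring
  have hG : ∀ a q, (G a q).card ≤ Fintype.card V ^ 3 := by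
    intro a q
    have h1 := card_pullS (V := V) ![q] (fun i j _ => Subsingleton.elim i j) (G a q)
      ((univ : Finset (Fin 1 → V)).filter fun t => t 0 = a)
      (fun w hw => mem_filter.mpr ⟨mem_univ _, (mem_filter.mp hw).2⟩)
    refine h1.trans ?_
    calc _ ≤ 1 * Fintype.card V ^ (4 - 1) := Nat.mul_le_mul_right _ (card_val a)
      _ = Fintype.card V ^ 3 := by ring
  have hsub : ((univ : Finset (Fin 4 → V)).filter fun w => ¬ Function.Injective (X6v x y w)) ⊆
      (univ.biUnion (G x) ∪ univ.biUnion (G y)) ∪ P.biUnion F := by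
    intro w hw
    have hw' := (mem_filter.mp hw).2
    by_contra hno
    simp only [mem_union, mem_biUnion] at hno
    push Not at hno
    obtain ⟨⟨n1, n2⟩, n3⟩ := hno
    have a1 : ∀ q, w q ≠ x := fun q h => n1 q (mem_univ _) (mem_filter.mpr ⟨mem_univ _, h⟩)
    have a2 : ∀ q, w q ≠ y := fun q h => n2 q (mem_univ _) (mem_filter.mpr ⟨mem_univ _, h⟩)
    have a3 : ∀ p q : Fin 4, p < q → w p ≠ w q := fun p q hpq h =>
      n3 (p, q) (mem_filter.mpr ⟨mem_univ _, hpq⟩) (mem_filter.mpr ⟨mem_univ _, h⟩)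
    have b01 := a3 0 1 (by decide)
    have b02 := a3 0 2 (by decide)
    have b03 := a3 0 3 (by decide)
    have b12 := a3 1 2 (by decide)
    have b13 := a3 1 3 (by decide)
    have b23 := a3 2 3 (by decide)
    refine hw' ?_
    intro i j h
    fin_cases i <;> fin_cases j <;> first
      | rfl
      | exact absurd h hxy
      | exact absurd h hxy.symm
      | exact absurd h (a1 _)
      | exact absurd h.symm (a1 _)
      | exact absurd h (a2 _)
      | exact absurd h.symm (a2 _)
      | exact absurd h b01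
      | exact absurd h.symm b01
      | exact absurd h b02
      | exact absurd h.symm b02
      | exact absurd h b03
      | exact absurd h.symm b03
      | exact absurd h b12
      | exact absurd h.symm b12
      | exact absurd h b13
      | exact absurd h.symm b13
      | exact absurd h b23
      | exact absurd h.symm b23
  refine (card_le_card hsub).trans ((card_union_le _ _).trans ?_)
  have u1 : ((univ : Finset (Fin 4)).biUnion (G x) ∪ univ.biUnion (G y)).card ≤
      4 * Fintype.card V ^ 3 + 4 * Fintype.card V ^ 3 := by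
    refine (card_union_le _ _).trans (Nat.add_le_add ?_ ?_)
    · refine card_biUnion_le.trans ((sum_le_sum fun q _ => hG x q).trans ?_)
      rw [sum_const, card_univ, Fintype.card_fin, smul_eq_mul]
    · refine card_biUnion_le.trans ((sum_le_sum fun q _ => hG y q).trans ?_)
      rw [sum_const, card_univ, Fintype.card_fin, smul_eq_mul]
  have u2 : (P.biUnion F).card ≤ 6 * Fintype.card V ^ 3 := by
    refine card_biUnion_le.trans ((sum_le_sum hF).trans ?_)
    rw [sum_const, hP, smul_eq_mul]
  omega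

/-- few four-tuples extend `x, y` to a listed structure in a prescribed way -/
theorem no_config' {i : Fm} (hC : Cl i E) {x y : V} (hxy : x ≠ y) {code m p : ℕ} (hm : m ∈ i.L)
    (hiso : isoB code m p = true) (kol : Fin 6 → Fin 3) (hk0 : g x = kol 0) (hk1 : g y = kol 1)
    (hcode : ∀ a b c : Fin 6, a < b → b < c → ¬ (a = 0 ∧ b = 1) →
      bt code (ti a b c) = Rf (kol a) (kol b) (kol c))
    (S : Fin 4 → Finset V)
    (hS : ∀ (j : Fin 4), ∀ v ∈ S j, g v = kol (j.natAdd 2) ∧
      E x y v = bt code (ti 0 1 (j.natAdd 2))) :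
    (∏ j, (S j).card) ≤ 6 * (Dv E g x * Fintype.card V ^ 2) +
      6 * (Dv E g y * Fintype.card V ^ 2) + 4 * (bad E g * Fintype.card V) +
        14 * Fintype.card V ^ 3 := by
  rw [← Fintype.card_piFinset]
  refine (card_le_card (t := ((univ : Finset (Fin 4 → V)).filter fun w =>
      ¬ ∀ a b c : Fin 6, a < b → b < c →
      ¬ (a = 0 ∧ b = 1) → E (X6v x y w a) (X6v x y w b) (X6v x y w c) =
        Rf (g (X6v x y w a)) (g (X6v x y w b)) (g (X6v x y w c))) ∪
      ((univ : Finset (Fin 4 → V)).filter fun w => ¬ Function.Injective (X6v x y w))) ?_).trans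
    ((card_union_le _ _).trans (Nat.add_le_add (card_viol hC.sy x y) (card_ninj hxy)))
  intro w hw
  rw [Fintype.mem_piFinset] at hw
  rw [mem_union]
  by_cases hinj : Function.Injective (X6v x y w)
  · left
    refine mem_filter.mpr ⟨mem_univ _, fun hall => ?_⟩
    have hk : ∀ a : Fin 6, g (X6v x y w a) = kol a := by
      intro a
      fin_cases a
      exacts [hk0, hk1, (hS 0 _ (hw 0)).1, (hS 1 _ (hw 1)).1, (hS 2 _ (hw 2)).1, (hS 3 _ (hw 3)).1]
    have hcopy : Copy E code (X6v x y w) := by
      intro a b c hab hbc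
      by_cases h01 : a = 0 ∧ b = 1
      · obtain ⟨rfl, rfl⟩ := h01
        fin_cases c
        · exact absurd hbc (by decide)
        · exact absurd hbc (by decide)
        · exact (hS 0 _ (hw 0)).2
        · exact (hS 1 _ (hw 1)).2
        · exact (hS 2 _ (hw 2)).2
        · exact (hS 3 _ (hw 3)).2
      · rw [hall a b c hab hbc h01, hk, hk, hk, hcode a b c hab hbc h01]
    obtain ⟨h1, h2⟩ := copy_of_iso hC.sy hiso hcopy
    exact hC.nn (X6v x y w) hinj ⟨gp p, h1, m, hm, h2⟩
  · right
    exact mem_filter.mpr ⟨mem_univ _, hinj⟩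

/-- the local conditions -/
structure Lc (E : V → V → V → ℕ) (g : V → Fin 3) : Prop extends Loc E g where
  hn' : 10 ^ 12 ≤ Fintype.card V
  hD' : ∀ v, 10 ^ 11 * Dv E g v ≤ Fintype.card V ^ 2

theorem viol_small' (hL : Lc E g) (x y : V) :
    10 ^ 11 * (6 * (Dv E g x * Fintype.card V ^ 2) + 6 * (Dv E g y * Fintype.card V ^ 2) +
      4 * (bad E g * Fintype.card V) + 14 * Fintype.card V ^ 3) ≤ 18 * Fintype.card V ^ 4 := by
  have h1 : 10 ^ 11 * bad E g ≤ Fintype.card V ^ 3 := by
    calc 10 ^ 11 * bad E g ≤ 10 ^ 11 * ∑ v, Dv E g v := Nat.mul_le_mul_left _ bad_eq_sum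
      _ = ∑ v, 10 ^ 11 * Dv E g v := by rw [mul_sum]
      _ ≤ ∑ _v : V, Fintype.card V ^ 2 := sum_le_sum fun v _ => hL.hD' v
      _ = Fintype.card V ^ 3 := by
        rw [sum_const, card_univ, smul_eq_mul]; ring
  have h2 := Nat.mul_le_mul_right (Fintype.card V ^ 2) (hL.hD' x)
  have h3 := Nat.mul_le_mul_right (Fintype.card V ^ 2) (hL.hD' y)
  have h4 := Nat.mul_le_mul_right (Fintype.card V) h1
  have h5 := Nat.mul_le_mul_right (Fintype.card V ^ 3) hL.hn'
  have e1 : Fintype.card V ^ 2 * Fintype.card V ^ 2 = Fintype.card V ^ 4 := by ring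
  have e2 : Fintype.card V ^ 3 * Fintype.card V = Fintype.card V ^ 4 := by ring
  have e3 : Fintype.card V * Fintype.card V ^ 3 = Fintype.card V ^ 4 := by ring
  rw [e1, mul_assoc] at h2 h3
  rw [e2, mul_assoc] at h4
  rw [e3] at h5
  generalize Dv E g x * Fintype.card V ^ 2 = X1 at *
  generalize Dv E g y * Fintype.card V ^ 2 = X2 at *
  generalize bad E g * Fintype.card V = X3 at *
  generalize Fintype.card V ^ 3 = X4 at *
  generalize Fintype.card V ^ 4 = X5 at *
  omega

theorem four_big {n q : ℕ} {f : Fin 4 → ℕ} (h : ∀ j, n ≤ q * f j) : n ^ 4 ≤ q ^ 4 * ∏ j, f j := by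
  rw [Fin.prod_univ_four]
  calc n ^ 4 = n * n * n * n := by ring
    _ ≤ (q * f 0) * (q * f 1) * (q * f 2) * (q * f 3) :=
        Nat.mul_le_mul (Nat.mul_le_mul (Nat.mul_le_mul (h 0) (h 1)) (h 2)) (h 3)
    _ = q ^ 4 * (f 0 * f 1 * f 2 * f 3) := by ring

/-- pairs in a part are in few extra edges -/
theorem same_light' {i : Fm} (hC : Cl i E) (hL : Lc E g) {x y : V} (hxy : g y = g x) :
    100 * (Bs E g x y).card < Fintype.card V := by
  by_contra hno
  push Not at hno
  have hE := hC.sy
  set t := g x with ht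
  set n := Fintype.card V with hn
  have hn4 := hL.hn
  rw [← hn] at hn4
  have hn0 : 0 < n := by omega
  have hD := Dv_two hL.toLoc x y
  have hne : x ≠ y := by
    rintro rfl
    have : (Bs E g x x).card = 0 := by
      rw [card_eq_zero, eq_empty_iff_forall_notMem]
      intro z hz
      have h1 := (mem_filter.mp hz).2.1
      rw [hC.dg] at h1
      exact absurd h1 (by decide)
    omega
  have hsub : Bs E g x y ⊆ Q E g x y t 1 ∪ Q E g x y (t + 2) 1 := by
    intro z hz
    obtain ⟨h1, h2⟩ := (mem_filter.mp hz).2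
    have hd := dist_of_one hE hC.dg h1
    unfold Tg at h2
    rw [if_pos hd, hxy] at h2
    rw [mem_union]
    rcases Rf_s0 _ _ h2 with h3 | h3
    · left; exact mem_filter.mpr ⟨mem_univ _, h3, h1⟩
    · right; exact mem_filter.mpr ⟨mem_univ _, h3, h1⟩
  have hc1 := (card_le_card hsub).trans (card_union_le _ _)
  -- the part `t + 2`
  have h2 : 200 * (Q E g x y (t + 2) 1).card < n := by
    by_contra h
    push Not at h
    have hpb := pb (g := g) hE hC.k4 (x := x) (y := y) (Q E g x y (t + 2) 1) (Q E g x y (t + 2) 1)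
      (fun a ha => (mem_filter.mp ha).2.2) (fun a ha => (mem_filter.mp ha).2.2) (by
        intro a ha b hb
        rw [(mem_filter.mp ha).2.1, (mem_filter.mp hb).2.1, hxy, ← ht]
        exact ⟨Rf_1 t, Rf_1 t⟩)
    have := small_of_prod hn0 hpb hD h (q := 300) (by norm_num)
    omega
  have h0 : n ≤ 200 * (Q E g x y t 1).card := by omega
  have h1 : 1000 * (Q E g x y (t + 1) 1).card ≤ n := by
    have hpb := pb (g := g) hE hC.k4 (x := x) (y := y) (Q E g x y t 1) (Q E g x y (t + 1) 1)
      (fun a ha => (mem_filter.mp ha).2.2) (fun a ha => (mem_filter.mp ha).2.2) (by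
        intro a ha b hb
        rw [(mem_filter.mp ha).2.1, (mem_filter.mp hb).2.1, hxy, ← ht]
        exact ⟨Rf_2 t, Rf_2 t⟩)
    exact small_of_prod hn0 hpb hD h0 (by norm_num)
  have q1 := Q_add (g := g) hE x y (t + 1)
  have q2 := Q_add (g := g) hE x y (t + 2)
  have l1 := hL.lo (t + 1)
  have l2 := hL.lo (t + 2)
  rw [← hn] at l1 l2
  have s1 : n ≤ 200 * (Q E g x y (t + 1) 0).card := by omega
  have s2 : n ≤ 200 * (Q E g x y (t + 2) 0).card := by omega
  have hnc := no_config' (g := g) hC hne (m := i.s.m) (by simp [Fm.L]) i.s.iso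
    ![t, t, i.s.K 0 + t, i.s.K 1 + t, i.s.K 2 + t, i.s.K 3 + t] ht.symm hxy
    (fun a b c hab hbc hne => by
      have := i.s.k t a b c hab hbc
      rw [if_neg hne] at this
      exact this)
    (fun j => Q E g x y (i.s.K j + t) (i.s.W j)) (by
      intro j v hv
      have hv' := (mem_filter.mp hv).2
      have h01 : ∀ c : Fin 6, 1 < c → bt i.s.code (ti 0 1 c) =
          (![9, 9, i.s.W 0, i.s.W 1, i.s.W 2, i.s.W 3] : Fin 6 → ℕ) c := by
        intro c hc
        have := i.s.k t 0 1 c (by decide) hc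
        rw [if_pos ⟨rfl, rfl⟩] at this
        exact this
      rw [hv'.1, hv'.2]
      fin_cases j
      · exact ⟨rfl, (h01 2 (by decide)).symm⟩
      · exact ⟨rfl, (h01 3 (by decide)).symm⟩
      · exact ⟨rfl, (h01 4 (by decide)).symm⟩
      · exact ⟨rfl, (h01 5 (by decide)).symm⟩)
  have hvs := viol_small' hL x y
  have e0 : (0 : Fin 3) + t = t := zero_add t
  have e1 : (1 : Fin 3) + t = t + 1 := add_comm _ _
  have e2 : (2 : Fin 3) + t = t + 2 := add_comm _ _
  have med : ∀ j, n ≤ 200 * (Q E g x y (i.s.K j + t) (i.s.W j)).card := by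
    intro j
    rcases i.s.o j with h | h | h
    · rw [h.1, h.2, e0]; exact h0
    · rw [h.1, h.2, e1]; exact s1
    · rw [h.1, h.2, e2]; exact s2
  have hbig := four_big (f := fun j => (Q E g x y (i.s.K j + t) (i.s.W j)).card) med
  have hp4 : 0 < n ^ 4 := by positivity
  have hfin := (Nat.mul_le_mul_left (10 ^ 11) hnc).trans hvs
  beta_reduce at hfin hbig
  rw [← hn] at hfin
  generalize (∏ j, (Q E g x y (i.s.K j + t) (i.s.W j)).card) = P at hbig hfin
  generalize n ^ 4 = W at hbig hfin hp4
  norm_num at hbig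
  omega

/-- pairs in consecutive parts which are in many extra edges are in few edges at all -/
theorem cross_heavy' {i : Fm} (hC : Cl i E) (hL : Lc E g) {x y : V} (hxy : g y = g x + 1)
    (hh : Fintype.card V ≤ 100 * (Bs E g x y).card) :
    58 * Fintype.card V ≤ 100 * (Ms E g x y).card ∧ 10 * (Bs E g x y).card ≤ 4 * Fintype.card V := by
  have hE := hC.sy
  set t := g x with ht
  set n := Fintype.card V with hn
  have hn4 := hL.hn
  rw [← hn] at hn4
  have hn0 : 0 < n := by omega
  have hD := Dv_two hL.toLoc x y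
  have hne : x ≠ y := by
    rintro rfl
    exact n1 t (ht.trans hxy)
  have hsub : Bs E g x y ⊆ Q E g x y (t + 1) 1 := by
    intro z hz
    obtain ⟨h1, h2⟩ := (mem_filter.mp hz).2
    have hd := dist_of_one hE hC.dg h1
    unfold Tg at h2
    rw [if_pos hd, hxy, ← ht] at h2
    exact mem_filter.mpr ⟨mem_univ _, Rf_c0 _ _ h2, h1⟩
  have hc1 := card_le_card hsub
  have q0 := Q_add (g := g) hE x y t
  have q1 := Q_add (g := g) hE x y (t + 1)
  have q2 := Q_add (g := g) hE x y (t + 2)
  have l0 := hL.lo t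
  have l2 := hL.lo (t + 2)
  have u1 := hL.hi (t + 1)
  rw [← hn] at l0 l2 u1
  have h1 : n ≤ 100 * (Q E g x y (t + 1) 1).card := by omega
  have h2 : 1000 * (Q E g x y (t + 2) 1).card ≤ n := by
    have hpb := pb (g := g) hE hC.k4 (x := x) (y := y) (Q E g x y (t + 1) 1) (Q E g x y (t + 2) 1)
      (fun a ha => (mem_filter.mp ha).2.2) (fun a ha => (mem_filter.mp ha).2.2) (by
        intro a ha b hb
        rw [(mem_filter.mp ha).2.1, (mem_filter.mp hb).2.1, hxy, ← ht]
        exact Rf_3 t)
    exact small_of_prod hn0 hpb hD h1 (by norm_num)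
  have s2 : 29 * n ≤ 100 * (Q E g x y (t + 2) 0).card := by omega
  have h0 : 100 * (Q E g x y t 1).card < n := by
    by_contra h
    push Not at h
    have hnc := no_config' (g := g) hC hne (m := i.c.m) (by simp [Fm.L]) i.c.iso
      ![t, t + 1, i.c.K 0 + t, i.c.K 1 + t, i.c.K 2 + t, i.c.K 3 + t] ht.symm hxy
      (fun a b c hab hbc hne => by
        have := i.c.k t a b c hab hbc
        rw [if_neg hne] at this
        exact this)
      (fun j => Q E g x y (i.c.K j + t) (i.c.W j)) (by
        intro j v hv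
        have hv' := (mem_filter.mp hv).2
        have h01 : ∀ c : Fin 6, 1 < c → bt i.c.code (ti 0 1 c) =
            (![9, 9, i.c.W 0, i.c.W 1, i.c.W 2, i.c.W 3] : Fin 6 → ℕ) c := by
          intro c hc
          have := i.c.k t 0 1 c (by decide) hc
          rw [if_pos ⟨rfl, rfl⟩] at this
          exact this
        rw [hv'.1, hv'.2]
        fin_cases j
        · exact ⟨rfl, (h01 2 (by decide)).symm⟩
        · exact ⟨rfl, (h01 3 (by decide)).symm⟩
        · exact ⟨rfl, (h01 4 (by decide)).symm⟩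
        · exact ⟨rfl, (h01 5 (by decide)).symm⟩)
    have hvs := viol_small' hL x y
    have e0 : (0 : Fin 3) + t = t := zero_add t
    have e1 : (1 : Fin 3) + t = t + 1 := add_comm _ _
    have e2 : (2 : Fin 3) + t = t + 2 := add_comm _ _
    have s2' : n ≤ 100 * (Q E g x y (t + 2) 0).card := by omega
    have med : ∀ j, n ≤ 100 * (Q E g x y (i.c.K j + t) (i.c.W j)).card := by
      intro j
      rcases i.c.o j with h' | h' | h'
      · rw [h'.1, h'.2, e0]; exact h
      · rw [h'.1, h'.2, e1]; exact h1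
      · rw [h'.1, h'.2, e2]; exact s2'
    have hbig := four_big (f := fun j => (Q E g x y (i.c.K j + t) (i.c.W j)).card) med
    have hp4 : 0 < n ^ 4 := by positivity
    have hfin := (Nat.mul_le_mul_left (10 ^ 11) hnc).trans hvs
    beta_reduce at hfin hbig
    rw [← hn] at hfin
    generalize (∏ j, (Q E g x y (i.c.K j + t) (i.c.W j)).card) = P at hbig hfin
    generalize n ^ 4 = W at hbig hfin hp4
    norm_num at hbig
    omega
  refine ⟨?_, by omega⟩
  have hM : (Q E g x y t 0).erase x ∪ Q E g x y (t + 2) 0 ⊆ Ms E g x y := by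
    intro w hw
    rw [mem_union, mem_erase] at hw
    rcases hw with ⟨hwx, hw⟩ | hw
    · obtain ⟨h1, h2⟩ := (mem_filter.mp hw).2
      refine mem_filter.mpr ⟨mem_univ _, h2, ?_⟩
      have hwy : y ≠ w := by
        rintro rfl
        exact n1 t (h1.symm.trans hxy)
      unfold Tg
      rw [if_pos ⟨hne, Ne.symm hwx, hwy⟩, hxy, h1, ← ht]
      exact Rf_2 t
    · obtain ⟨h1, h2⟩ := (mem_filter.mp hw).2
      refine mem_filter.mpr ⟨mem_univ _, h2, ?_⟩
      have hwx : x ≠ w := by
        rintro rfl
        exact n2 t (ht.trans h1)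
      have hwy : y ≠ w := by
        rintro rfl
        exact n3 t (hxy.symm.trans h1)
      unfold Tg
      rw [if_pos ⟨hne, hwx, hwy⟩, hxy, h1, ← ht]
      exact Rf_4 t
  have hdis : Disjoint ((Q E g x y t 0).erase x) (Q E g x y (t + 2) 0) := by
    rw [disjoint_left]
    intro w h1 h2
    have h1' := (mem_filter.mp (mem_of_mem_erase h1)).2.1
    have h2' := (mem_filter.mp h2).2.1
    exact n2 t (h1'.symm.trans h2')
  have hcM := card_le_card hM
  rw [card_union_of_disjoint hdis] at hcM
  have he := pred_card_le_card_erase (s := Q E g x y t 0) (a := x)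
  omega

/-- pairs in many extra edges are in many missing edges -/
theorem heavy' {i : Fm} (hC : Cl i E) (hL : Lc E g) {x y : V}
    (hh : Fintype.card V ≤ 100 * (Bs E g x y).card) :
    58 * Fintype.card V ≤ 100 * (Ms E g x y).card ∧ 10 * (Bs E g x y).card ≤ 4 * Fintype.card V := by
  rcases three (g x) (g y) with h | h | h
  · have := same_light' hC hL h
    omega
  · exact cross_heavy' hC hL h hh
  · rw [Bs_comm hC.sy x y] at hh
    have := cross_heavy' hC hL h hh
    rw [Bs_comm hC.sy x y, Ms_comm hC.sy x y]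
    exact this

end
end Pool.Agent.Run7.h211.EY
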