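import Pool.Agent.Run7.h211.EY.Exa

/-! The data of the structures. -/

set_option autoImplicit false
set_option maxRecDepth 100000
set_option maxHeartbeats 4000000
open Finset

namespace Pool.Agent.Run7.h211.EY
open Pool.Agent.TH773 Pool.Agent.TH773.ST Pool.Agent.H122R2.N6 Pool.Agent.H37R3.Pen
open Pool.Agent.H37R3.Cop Pool.Agent.H37R3.CopL Pool.Agent.Y878.EX

/-- the structure `19` -/
def s0 : SD where
  m := 19
  code := 19
  p := 181896
  K := ![0, 0, 0, 2]
  W := ![1, 1, 1, 0]
  no := by decide +kernel
  iso := by decide +kernel
  k := by decide +kernel
  o := by decide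

/-- the structure `3127` -/
def s1 : SD where
  m := 3127
  code := 6253
  p := 181826
  K := ![0, 1, 1, 1]
  W := ![1, 0, 0, 0]
  no := by decide +kernel
  iso := by decide +kernel
  k := by decide +kernel
  o := by decide

/-- the structure `11447` -/
def s2 : SD where
  m := 11447
  code := 301676
  p := 35610
  K := ![2, 1, 1, 1]
  W := ![0, 0, 0, 0]
  no := by decide +kernel
  iso := by decide +kernel
  k := by decide +kernel
  o := by decide

/-- the structure `12486` -/
def s3 : SD where
  m := 12486
  code := 34332
  p := 181826
  K := ![2, 2, 0, 0]
  W := ![0, 0, 1, 1]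
  no := by decide +kernel
  iso := by decide +kernel
  k := by decide +kernel
  o := by decide

/-- the structure `32252` -/
def s4 : SD where
  m := 32252
  code := 64483
  p := 180762
  K := ![0, 0, 1, 1]
  W := ![1, 1, 0, 0]
  no := by decide +kernel
  iso := by decide +kernel
  k := by decide +kernel
  o := by decide

/-- the structure `77054` -/
def s5 : SD where
  m := 77054
  code := 301694
  p := 181826
  K := ![1, 0, 0, 2]
  W := ![0, 1, 1, 0]
  no := by decide +kernel
  iso := by decide +kernel
  k := by decide +kernel
  o := by decide

/-- the structure `96747` -/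
def s6 : SD where
  m := 96747
  code := 588769
  p := 35610
  K := ![0, 2, 1, 1]
  W := ![1, 0, 0, 0]
  no := by decide +kernel
  iso := by decide +kernel
  k := by decide +kernel
  o := by decide

/-- the structure `119623` -/
def s7 : SD where
  m := 119623
  code := 820716
  p := 170192
  K := ![2, 2, 2, 0]
  W := ![0, 0, 0, 1]
  no := by decide +kernel
  iso := by decide +kernel
  k := by decide +kernel
  o := by decide

/-- the structure `120663` -/
def s8 : SD where
  m := 120663
  code := 517005
  p := 35610
  K := ![0, 1, 2, 2]
  W := ![1, 0, 0, 0]
  no := by decide +kernel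
  iso := by decide +kernel
  k := by decide +kernel
  o := by decide

/-- the structure `11447` -/
def c2 : CD where
  m := 11447
  code := 151899
  p := 22737
  K := ![0, 0, 0, 2]
  W := ![1, 1, 1, 0]
  no := by decide +kernel
  iso := by decide +kernel
  k := by decide +kernel
  o := by decide

/-- the structure `15614` -/
def c3 : CD where
  m := 15614
  code := 44731
  p := 180944
  K := ![0, 0, 1, 1]
  W := ![1, 1, 1, 1]
  no := by decide +kernel
  iso := by decide +kernel
  k := by decide +kernel
  o := by decide

/-- the structure `77147` -/
def c4 : CD where
  m := 77147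
  code := 80109
  p := 55490
  K := ![1, 2, 2, 2]
  W := ![1, 0, 0, 0]
  no := by decide +kernel
  iso := by decide +kernel
  k := by decide +kernel
  o := by decide

/-- the structure `77292` -/
def c5 : CD where
  m := 77292
  code := 373449
  p := 55490
  K := ![0, 2, 2, 2]
  W := ![1, 0, 0, 0]
  no := by decide +kernel
  iso := by decide +kernel
  k := by decide +kernel
  o := by decide

/-- the structure `78078` -/
def c6 : CD where
  m := 78078
  code := 186196
  p := 22737
  K := ![2, 2, 0, 0]
  W := ![0, 0, 1, 1]
  no := by decide +kernel
  iso := by decide +kernel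
  k := by decide +kernel
  o := by decide

/-- the structure `97788` -/
def c7 : CD where
  m := 97788
  code := 449335
  p := 22730
  K := ![1, 0, 0, 2]
  W := ![1, 1, 1, 0]
  no := by decide +kernel
  iso := by decide +kernel
  k := by decide +kernel
  o := by decide

/-- the structure `122742` -/
def c8 : CD where
  m := 122742
  code := 130019
  p := 180944
  K := ![1, 1, 2, 2]
  W := ![1, 1, 0, 0]
  no := by decide +kernel
  iso := by decide +kernel
  k := by decide +kernel
  o := by decide

/-- the structure `228027` -/
def c9 : CD where
  m := 228027
  code := 645991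
  p := 35610
  K := ![1, 0, 2, 2]
  W := ![1, 1, 0, 0]
  no := by decide +kernel
  iso := by decide +kernel
  k := by decide +kernel
  o := by decide

end Pool.Agent.Run7.h211.EY
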