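import Pool.Agent.Run7.h211.EY.Cmp
import Pool.Agent.Run7.h211.PW.Main

/-! Structures with many edges and large degrees: numbers of six-tuples which do not follow the
rule. The classes need not be closed under the cloning of vertices; a structure with `m` clones of a
vertex has few copies of the listed structures. -/

set_option autoImplicit false
set_option maxRecDepth 100000
set_option maxHeartbeats 4000000
open Finset
open scoped Classical

namespace Pool.Agent.Run7.h211.EY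
open Pool.Agent.TH773 Pool.Agent.TH773.ST Pool.Agent.H122R2.N6 Pool.Agent.H37R3.Pen
open Pool.Agent.H37R3.Cop Pool.Agent.H37R3.CopL Pool.Agent.Y878.EX

theorem no_copy' {i : Fm} {m : ℕ} (hm : m ∈ i.L) (c : Fin 6 → Fin 3) : ¬ Copy Rf m c := by
  intro h
  have hn : nocol m = true := by
    simp only [Fm.L, List.mem_cons, List.not_mem_nil, or_false] at hm
    rcases hm with rfl | rfl
    · exact i.s.no
    · exact i.c.no
  have h1 := b3_true (b3_true (b3_true (b3_true (b3_true (b3_true hn (c 0)) (c 1))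
    (c 2)) (c 3)) (c 4)) (c 5)
  have h2 := cp_of_copy h
  change (!(Pool.Agent.Y878.EX.cpB m (c 0) (c 1) (c 2) (c 3) (c 4) (c 5))) = true at h1
  rw [h2] at h1
  exact absurd h1 (by decide)

theorem Tg_cl {V : Type} (i : Fm) (g : V → Fin 3) : Cl i (Tg g) where
  sy := Tg_sy g
  k4 := by
    intro a b c d
    by_contra h
    rw [Bool.not_eq_false] at h
    obtain ⟨h1, h2, h3, h4⟩ := k4b_iff ((Tg_sy g).b _ _ _) ((Tg_sy g).b _ _ _) ((Tg_sy g).b _ _ _)
      ((Tg_sy g).b _ _ _) h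
    exact noK_col _ _ _ _ ⟨Tg_one h1, Tg_one h2, Tg_one h3, Tg_one h4⟩
  dg := Tg_dg g
  nn := by
    rintro x hx ⟨p, hp, m, hm, hc⟩
    have hinj : Function.Injective (x ∘ p) := hx.comp hp
    refine no_copy' hm (g ∘ (x ∘ p)) ?_
    intro a b c hab hbc
    rw [← hc a b c hab hbc, Tg_of (fun e => hab.ne (hinj e)) (fun e => (hab.trans hbc).ne (hinj e))
      (fun e => hbc.ne (hinj e))]
    rfl

/-- the classes are closed under taking induced substructures -/
theorem Cl.restrict {i : Fm} {V W : Type} {E : V → V → V → ℕ} (hC : Cl i E) (p : W → V)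
    (hp : Function.Injective p) : Cl i (fun a b c => E (p a) (p b) (p c)) where
  sy := ⟨fun _ _ _ => hC.sy.b _ _ _, fun _ _ _ => hC.sy.h213 _ _ _, fun _ _ _ => hC.sy.h132 _ _ _⟩
  k4 := fun _ _ _ _ => hC.k4 _ _ _ _
  dg := fun _ _ => hC.dg _ _
  nn := by
    rintro x hx ⟨q, hq, m, hm, hc⟩
    exact hC.nn (p ∘ x) (hp.comp hx) ⟨q, hq, m, hm, fun a b c hab hbc => hc a b c hab hbc⟩

section
variable {V : Type} [Fintype V] {E : V → V → V → ℕ}

theorem sum_XL_cl {i : Fm} (hC : Cl i E) : ∑ x : Fin 6 → V, XL E i.L x ≤ 15 * Fintype.card V ^ 5 := by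
  have e1 : ∑ x : Fin 6 → V, XL E i.L x =
      ((univ : Finset (Fin 6 → V)).filter fun x => RelL E i.L x).card := by
    rw [card_filter]; rfl
  rw [e1]
  refine le_trans (card_le_card ?_) (FA.card_noninj (V := V))
  intro x hx
  exact mem_filter.mpr ⟨mem_univ _, fun h => hC.nn x h (mem_filter.mp hx).2⟩

theorem cert_cl {i : Fm} (hC : Cl i E) :
    9000 * Fintype.card V ^ 3 * S3 E + NT E ≤ 5000 * Fintype.card V ^ 6 +
      81075 * Fintype.card V ^ 5 := by
  have h := i.cert hC.sy hC.k4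
  unfold PW.Cert at h
  have h2 := sum_XL_cl hC
  unfold Fm.L at h2
  have h3 : 9000 * Fintype.card V ^ 3 * S3 E + NT E ≤ 5000 * Fintype.card V ^ 6 +
    5405 * ∑ x : Fin 6 → V, XL E [i.s.m, i.c.m] x := h
  omega

/-- the map from the structure with `m` clones of `v` -/
def pm (v : V) (m : ℕ) : V ⊕ Fin m → V := Sum.elim id (fun _ => v)

omit [Fintype V] in
theorem pm_eq {v : V} {m : ℕ} {a b : V ⊕ Fin m} (h : pm v m a = pm v m b) (hab : a ≠ b) :
    pm v m a = v := by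
  rcases a with a | a
  · rcases b with b | b
    · exact absurd (congrArg Sum.inl h) hab
    · exact h
  · rfl

theorem card_fib (v : V) (m : ℕ) :
    ((univ : Finset (V ⊕ Fin m)).filter fun a => pm v m a = v).card ≤ m + 1 := by
  have h1 : ((univ : Finset (V ⊕ Fin m)).filter fun a => pm v m a = v) ⊆
      insert (Sum.inl v) ((univ : Finset (Fin m)).map ⟨Sum.inr, Sum.inr_injective⟩) := by
    intro a ha
    have ha' := (mem_filter.mp ha).2
    rw [mem_insert, mem_map]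
    rcases a with a | a
    · left
      have : a = v := ha'
      rw [this]
    · right
      exact ⟨a, mem_univ _, rfl⟩
  refine (card_le_card h1).trans ((card_insert_le _ _).trans ?_)
  rw [card_map, card_univ, Fintype.card_fin]

theorem card_pairfib (v : V) (m : ℕ) (i j : Fin 6) (hij : i ≠ j) :
    ((univ : Finset (Fin 6 → V ⊕ Fin m)).filter fun x => pm v m (x i) = v ∧ pm v m (x j) = v).card ≤
      (m + 1) ^ 2 * (Fintype.card V + m) ^ 4 := by
  have he : Function.Injective ![i, j] := by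
    intro a b h
    fin_cases a <;> fin_cases b
    · rfl
    · exact absurd h hij
    · exact absurd h hij.symm
    · rfl
  let D := (univ : Finset (V ⊕ Fin m)).filter fun a => pm v m a = v
  have h1 := card_pullS (V := V ⊕ Fin m) ![i, j] he
    ((univ : Finset (Fin 6 → V ⊕ Fin m)).filter fun x => pm v m (x i) = v ∧ pm v m (x j) = v)
    (Fintype.piFinset fun _ : Fin 2 => D) (by
      intro w hw
      have hw' := (mem_filter.mp hw).2
      refine Fintype.mem_piFinset.mpr fun k => ?_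
      fin_cases k
      · exact mem_filter.mpr ⟨mem_univ _, hw'.1⟩
      · exact mem_filter.mpr ⟨mem_univ _, hw'.2⟩)
  refine h1.trans ?_
  rw [Fintype.card_piFinset, prod_const, card_univ, Fintype.card_fin, Fintype.card_sum,
    Fintype.card_fin]
  exact Nat.mul_le_mul_right _ (Nat.pow_le_pow_left (card_fib v m) 2)

/-- few copies of the listed structures in the structure with `m` clones of `v` -/
theorem sum_XL_clone {i : Fm} (hC : Cl i E) (v : V) (m : ℕ) :
    ∑ x : Fin 6 → V ⊕ Fin m, XL (fun a b c : V ⊕ Fin m => E (pm v m a) (pm v m b) (pm v m c)) i.L x ≤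
      15 * (Fintype.card V + m) ^ 5 + 15 * ((m + 1) ^ 2 * (Fintype.card V + m) ^ 4) := by
  let P : Finset (Fin 6 × Fin 6) := univ.filter fun p => p.1 < p.2
  have hP : P.card = 15 := by decide
  let B : Finset (Fin 6 → V ⊕ Fin m) := univ.filter fun x => ¬ Function.Injective x
  let F : Fin 6 × Fin 6 → Finset (Fin 6 → V ⊕ Fin m) := fun p =>
    univ.filter fun x => pm v m (x p.1) = v ∧ pm v m (x p.2) = v
  have hB : B.card ≤ 15 * (Fintype.card V + m) ^ 5 := by
    have h := FA.card_noninj (V := V ⊕ Fin m)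
    rw [Fintype.card_sum, Fintype.card_fin] at h
    convert h
  have hF : ∀ p ∈ P, (F p).card ≤ (m + 1) ^ 2 * (Fintype.card V + m) ^ 4 := fun p hp =>
    card_pairfib v m p.1 p.2 (mem_filter.mp hp).2.ne
  have hsub : ((univ : Finset (Fin 6 → V ⊕ Fin m)).filter fun x =>
      RelL (fun a b c : V ⊕ Fin m => E (pm v m a) (pm v m b) (pm v m c)) i.L x) ⊆
        B ∪ P.biUnion F := by
    intro x hx
    have hx' := (mem_filter.mp hx).2
    by_contra hno
    rw [mem_union, mem_biUnion] at hno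
    push Not at hno
    obtain ⟨n1, n2⟩ := hno
    have hinj : Function.Injective x := by
      by_contra h
      exact n1 (mem_filter.mpr ⟨mem_univ _, h⟩)
    have hpi : Function.Injective (pm v m ∘ x) := by
      intro a b hab
      by_contra hne
      have hxab : x a ≠ x b := fun h => hne (hinj h)
      have e1 : pm v m (x a) = v := pm_eq hab hxab
      have e2 : pm v m (x b) = v := pm_eq hab.symm hxab.symm
      rcases lt_or_gt_of_ne hne with h | h
      · exact n2 (a, b) (mem_filter.mpr ⟨mem_univ _, h⟩) (mem_filter.mpr ⟨mem_univ _, e1, e2⟩)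
      · exact n2 (b, a) (mem_filter.mpr ⟨mem_univ _, h⟩) (mem_filter.mpr ⟨mem_univ _, e2, e1⟩)
    obtain ⟨q, hq, m', hm', hc⟩ := hx'
    exact hC.nn (pm v m ∘ x) hpi ⟨q, hq, m', hm', fun a b c hab hbc => hc a b c hab hbc⟩
  have e1 : ∑ x : Fin 6 → V ⊕ Fin m,
      XL (fun a b c : V ⊕ Fin m => E (pm v m a) (pm v m b) (pm v m c)) i.L x =
      ((univ : Finset (Fin 6 → V ⊕ Fin m)).filter fun x =>
      RelL (fun a b c : V ⊕ Fin m => E (pm v m a) (pm v m b) (pm v m c)) i.L x).card := by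
    rw [card_filter]; rfl
  rw [e1]
  refine (card_le_card hsub).trans ((card_union_le _ _).trans (Nat.add_le_add hB ?_))
  refine card_biUnion_le.trans ((sum_le_sum hF).trans ?_)
  rw [sum_const, hP, smul_eq_mul]

/-- the inequality for the structure with `m` further copies of a vertex -/
theorem clone_ineq' {i : Fm} (hC : Cl i E) (v : V) (m : ℕ) :
    9000 * (Fintype.card V + m) ^ 3 * (S3 E + 3 * (m * dgr E v)) + m * NTv E v ≤
      5000 * (Fintype.card V + m) ^ 6 + 81075 * (Fintype.card V + m) ^ 5 +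
        81075 * ((m + 1) ^ 2 * (Fintype.card V + m) ^ 4) := by
  have h := i.cert (V := V ⊕ Fin m) (E := fun a b c => E (pm v m a) (pm v m b) (pm v m c))
    ⟨fun _ _ _ => hC.sy.b _ _ _, fun _ _ _ => hC.sy.h213 _ _ _, fun _ _ _ => hC.sy.h132 _ _ _⟩
    (fun _ _ _ _ => hC.k4 _ _ _ _)
  unfold PW.Cert at h
  rw [Fintype.card_sum, Fintype.card_fin] at h
  have h2 := sum_XL_clone hC v m
  unfold Fm.L at h2
  have h3 : 9000 * (Fintype.card V + m) ^ 3 * (S3 E + 3 * (m * dgr E v)) ≤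
      9000 * (Fintype.card V + m) ^ 3 * (S3 fun a b c : V ⊕ Fin m =>
        E (pm v m a) (pm v m b) (pm v m c)) := Nat.mul_le_mul_left _ (S3_clone hC.sy v m)
  have h4 : m * NTv E v ≤ NT fun a b c : V ⊕ Fin m => E (pm v m a) (pm v m b) (pm v m c) :=
    NT_clone v m
  have h5 : 9000 * (Fintype.card V + m) ^ 3 * (S3 fun a b c : V ⊕ Fin m =>
        E (pm v m a) (pm v m b) (pm v m c)) +
      NT (fun a b c : V ⊕ Fin m => E (pm v m a) (pm v m b) (pm v m c)) ≤
      5000 * (Fintype.card V + m) ^ 6 + 5405 * ∑ x : Fin 6 → V ⊕ Fin m,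
        XL (fun a b c : V ⊕ Fin m => E (pm v m a) (pm v m b) (pm v m c)) [i.s.m, i.c.m] x := h
  omega

end

theorem arith1' {n m S d T : ℤ} (hn : 0 < n) (hm : 0 < m) (hmn : m ≤ n)
    (h : 9000 * (n + m) ^ 3 * (S + 3 * (m * d)) + m * T ≤ 5000 * (n + m) ^ 6 +
      81075 * (n + m) ^ 5 + 81075 * ((m + 1) ^ 2 * (n + m) ^ 4))
    (hS : 5 * n ^ 3 ≤ 9 * S + 57 * n ^ 2) (hd : 5 * n ^ 2 ≤ 9 * d + 40 * n) :
    m * T ≤ 5348800 * (n ^ 4 * m ^ 2) + 4010400 * n ^ 5 := by
  have hN0 : 0 < n + m := by linarith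
  have hN : n + m ≤ 2 * n := by linarith
  have h3 : (n + m) ^ 3 ≤ 8 * n ^ 3 := by
    calc (n + m) ^ 3 ≤ (2 * n) ^ 3 := pow_le_pow_left₀ hN0.le hN 3
      _ = _ := by ring
  have h4 : (n + m) ^ 4 ≤ 16 * n ^ 4 := by
    calc (n + m) ^ 4 ≤ (2 * n) ^ 4 := pow_le_pow_left₀ hN0.le hN 4
      _ = _ := by ring
  have h5 : (n + m) ^ 5 ≤ 32 * n ^ 5 := by
    calc (n + m) ^ 5 ≤ (2 * n) ^ 5 := pow_le_pow_left₀ hN0.le hN 5
      _ = _ := by ring
  -- lower bound for the main term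
  have a1 : 0 ≤ 1000 * (n + m) ^ 3 * (9 * S + 57 * n ^ 2 - 5 * n ^ 3) :=
    mul_nonneg (by positivity) (by linarith)
  have a2 : 0 ≤ 3000 * (n + m) ^ 3 * (m * (9 * d + 40 * n - 5 * n ^ 2)) :=
    mul_nonneg (by positivity) (mul_nonneg hm.le (by linarith))
  have b1 : m * T ≤ (n + m) ^ 3 * (5000 * (3 * (m ^ 2 * n) + m ^ 3) +
      1000 * (57 * n ^ 2 + 120 * (m * n))) + 81075 * (n + m) ^ 5 +
        81075 * ((m + 1) ^ 2 * (n + m) ^ 4) := by
    have e : (n + m) ^ 3 * (5000 * (3 * (m ^ 2 * n) + m ^ 3) +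
      1000 * (57 * n ^ 2 + 120 * (m * n))) = 5000 * (n + m) ^ 6 -
        9000 * (n + m) ^ 3 * (S + 3 * (m * d)) +
        1000 * (n + m) ^ 3 * (9 * S + 57 * n ^ 2 - 5 * n ^ 3) +
        3000 * (n + m) ^ 3 * (m * (9 * d + 40 * n - 5 * n ^ 2)) := by ring
    rw [e]
    linarith
  have c1 : m ^ 3 ≤ n * m ^ 2 := by
    calc m ^ 3 = m * m ^ 2 := by ring
      _ ≤ n * m ^ 2 := mul_le_mul_of_nonneg_right hmn (by positivity)
  have c2 : m * n ≤ n ^ 2 := by
    calc m * n ≤ n * n := mul_le_mul_of_nonneg_right hmn hn.le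
      _ = n ^ 2 := by ring
  have c3 : (m + 1) ^ 2 ≤ 4 * m ^ 2 := by
    calc (m + 1) ^ 2 ≤ (2 * m) ^ 2 := pow_le_pow_left₀ (by linarith) (by linarith) 2
      _ = _ := by ring
  have d1 : (n + m) ^ 3 * (5000 * (3 * (m ^ 2 * n) + m ^ 3) +
      1000 * (57 * n ^ 2 + 120 * (m * n))) ≤
      8 * n ^ 3 * (20000 * (n * m ^ 2) + 177000 * n ^ 2) := by
    refine mul_le_mul h3 ?_ (by positivity) (by positivity)
    linarith [show m ^ 2 * n = n * m ^ 2 by ring]
  have d2 : (m + 1) ^ 2 * (n + m) ^ 4 ≤ 4 * m ^ 2 * (16 * n ^ 4) :=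
    mul_le_mul c3 h4 (by positivity) (by positivity)
  have e1 : 8 * n ^ 3 * (20000 * (n * m ^ 2) + 177000 * n ^ 2) =
      160000 * (n ^ 4 * m ^ 2) + 1416000 * n ^ 5 := by ring
  have e2 : 4 * m ^ 2 * (16 * n ^ 4) = 64 * (n ^ 4 * m ^ 2) := by ring
  rw [e1] at d1
  rw [e2] at d2
  linarith

theorem arith2' {n m S d T : ℕ} (hn : 10 ^ 45 ≤ n) (hm : m = n / 10 ^ 22)
    (h : 9000 * (n + m) ^ 3 * (S + 3 * (m * d)) + m * T ≤ 5000 * (n + m) ^ 6 +
      81075 * (n + m) ^ 5 + 81075 * ((m + 1) ^ 2 * (n + m) ^ 4))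
    (hS : 5 * n ^ 3 ≤ 9 * S + 57 * n ^ 2) (hd : 5 * n ^ 2 ≤ 9 * d + 40 * n) :
    10 ^ 15 * T ≤ n ^ 5 := by
  have hm1 : 10 ^ 22 * m ≤ n := by rw [hm]; exact Nat.mul_div_le _ _
  have hm2 : n ≤ 2 * 10 ^ 22 * m := by omega
  have hm0 : 0 < m := by omega
  have hmn : m ≤ n := by omega
  have hn0 : 0 < n := by omega
  have h1 := arith1' (n := (n : ℤ)) (m := m) (S := S) (d := d) (T := T)
    (by exact_mod_cast hn0) (by exact_mod_cast hm0) (by exact_mod_cast hmn)
    (by exact_mod_cast h) (by exact_mod_cast hS) (by exact_mod_cast hd)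
  have h2 : m * T ≤ 5348800 * (n ^ 4 * m ^ 2) + 4010400 * n ^ 5 := by exact_mod_cast h1
  have h3 : n ^ 5 ≤ 2 * 10 ^ 22 * (m * n ^ 4) := by
    calc n ^ 5 = n * n ^ 4 := by ring
      _ ≤ 2 * 10 ^ 22 * m * n ^ 4 := Nat.mul_le_mul_right _ hm2
      _ = _ := by ring
  have h4 : m * T ≤ m * (n ^ 4 * (5348800 * m + 8020800 * 10 ^ 22)) := by
    calc m * T ≤ 5348800 * (n ^ 4 * m ^ 2) + 4010400 * n ^ 5 := h2
      _ ≤ 5348800 * (n ^ 4 * m ^ 2) + 4010400 * (2 * 10 ^ 22 * (m * n ^ 4)) := by omega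
      _ = _ := by ring
  have h5 := Nat.le_of_mul_le_mul_left h4 hm0
  have k2 : 10 ^ 15 * (8020800 * 10 ^ 44) ≤ 10 ^ 21 * n := by
    calc 10 ^ 15 * (8020800 * 10 ^ 44) ≤ 10 ^ 21 * 10 ^ 45 := by norm_num
      _ ≤ 10 ^ 21 * n := Nat.mul_le_mul_left _ hn
  have k3 : 10 ^ 15 * (5348800 * (10 ^ 22 * m) + 8020800 * 10 ^ 44) ≤ 10 ^ 22 * n := by
    rw [mul_add]
    have k4 : 10 ^ 15 * (5348800 * (10 ^ 22 * m)) ≤ 10 ^ 15 * (5348800 * n) :=
      Nat.mul_le_mul_left _ (Nat.mul_le_mul_left _ hm1)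
    calc 10 ^ 15 * (5348800 * (10 ^ 22 * m)) + 10 ^ 15 * (8020800 * 10 ^ 44) ≤
        10 ^ 15 * (5348800 * n) + 10 ^ 21 * n := Nat.add_le_add k4 k2
      _ = (10 ^ 15 * 5348800 + 10 ^ 21) * n := by ring
      _ ≤ 10 ^ 22 * n := Nat.mul_le_mul_right _ (by norm_num)
  have h6 : 10 ^ 22 * (10 ^ 15 * T) ≤ 10 ^ 22 * n ^ 5 := by
    calc 10 ^ 22 * (10 ^ 15 * T) ≤ 10 ^ 22 * (10 ^ 15 * (n ^ 4 * (5348800 * m + 8020800 * 10 ^ 22))) :=
          Nat.mul_le_mul_left _ (Nat.mul_le_mul_left _ h5)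
      _ = n ^ 4 * (10 ^ 15 * (5348800 * (10 ^ 22 * m) + 8020800 * 10 ^ 44)) := by ring
      _ ≤ n ^ 4 * (10 ^ 22 * n) := Nat.mul_le_mul_left _ k3
      _ = 10 ^ 22 * n ^ 5 := by ring
  exact Nat.le_of_mul_le_mul_left h6 (by norm_num)

/-- structures of the class with many edges and large degrees -/
structure Ex (i : Fm) {V : Type} [Fintype V] (E : V → V → V → ℕ) : Prop where
  c : Cl i E
  tu : ∀ g : V → Fin 3, S3 (Tg g) ≤ S3 E
  dg : ∀ v, 5 * Fintype.card V ^ 2 ≤ 9 * dgr E v + 40 * Fintype.card V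

section
variable {V : Type} [Fintype V] {E : V → V → V → ℕ} {i : Fm}

theorem Ex.low (h : Ex i E) : 5 * Fintype.card V ^ 3 ≤ 9 * S3 E + 57 * Fintype.card V ^ 2 := by
  obtain ⟨g, hg⟩ := exists_balanced V
  have h1 := S3_Tg_large g hg
  have h2 := h.tu g
  omega

theorem Ex.nt (h : Ex i E) : NT E ≤ 138075 * Fintype.card V ^ 5 := by
  have h1 := cert_cl h.c
  have h2 := Nat.mul_le_mul_left (1000 * Fintype.card V ^ 3) h.low
  have e1 : 1000 * Fintype.card V ^ 3 * (5 * Fintype.card V ^ 3) = 5000 * Fintype.card V ^ 6 := by ring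
  have e2 : 1000 * Fintype.card V ^ 3 * (9 * S3 E + 57 * Fintype.card V ^ 2) =
      9000 * Fintype.card V ^ 3 * S3 E + 57000 * Fintype.card V ^ 5 := by ring
  rw [e1, e2] at h2
  omega

theorem Ex.ntv (h : Ex i E) (hn : 10 ^ 45 ≤ Fintype.card V) (v : V) :
    10 ^ 15 * NTv E v ≤ Fintype.card V ^ 5 :=
  arith2' hn rfl (clone_ineq' h.c v (Fintype.card V / 10 ^ 22)) h.low (h.dg v)

/-- a colouring with few violations -/
theorem Ex.col (h : Ex i E) (hn : 0 < Fintype.card V) :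
    ∃ g : V → Fin 3, bad E g ≤ 10 ^ 11 * Fintype.card V ^ 2 := by
  obtain ⟨g, hg'⟩ := PW.stab2 h.c.sy h.c.k4
  have hg := hg' _ (i.cert h.c.sy h.c.k4)
  refine ⟨g, ?_⟩
  have hx := sum_XL_cl h.c
  unfold Fm.L at hx
  have h2 := Nat.mul_le_mul_left (645120000 * Fintype.card V ^ 3) h.low
  have e0 : ∑ a, ∑ b, ∑ c, E a b c = S3 E := rfl
  rw [e0] at hg
  have e1 : 645120000 * Fintype.card V ^ 3 * (5 * Fintype.card V ^ 3) =
      3225600000 * Fintype.card V ^ 6 := by ring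
  have e2 : 645120000 * Fintype.card V ^ 3 * (9 * S3 E + 57 * Fintype.card V ^ 2) =
      5806080000 * (Fintype.card V ^ 3 * S3 E) + 36771840000 * Fintype.card V ^ 5 := by ring
  rw [e1, e2] at h2
  have h3 : Fintype.card V ^ 3 * bad E g ≤ Fintype.card V ^ 3 * (89074944000 * Fintype.card V ^ 2) := by
    have e3 : Fintype.card V ^ 3 * (89074944000 * Fintype.card V ^ 2) =
      89074944000 * Fintype.card V ^ 5 := by ring
    rw [e3]
    omega
  have h4 := Nat.le_of_mul_le_mul_left h3 (by positivity)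
  omega

/-- the parts have nearly equal sizes -/
theorem Ex.parts (h : Ex i E) {g : V → Fin 3} (hn : 10 ^ 10 ≤ Fintype.card V)
    (hb : 10 ^ 9 * bad E g ≤ Fintype.card V ^ 3) (k : Fin 3) :
    3 * Fintype.card V ≤ 10 * (Pt g k).card ∧ 10 * (Pt g k).card ≤ 4 * Fintype.card V := by
  have h1 : S3 E ≤ S3 (fun x y z => Rf (g x) (g y) (g z)) + bad E g := by
    have e1 : S3 E ≤ S3 fun x y z => Rf (g x) (g y) (g z) +
        (if E x y z ≠ Rf (g x) (g y) (g z) then 1 else 0) := by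
      refine S3_le fun x y z => ?_
      rcases h.c.sy.b x y z with h1 | h1
      · rw [h1]; exact Nat.zero_le _
      · by_cases h2 : E x y z ≠ Rf (g x) (g y) (g z)
        · rw [if_pos h2, h1]; omega
        · push Not at h2
          rw [if_neg (not_not.mpr h2), h2, add_zero]
    rw [S3_add] at e1
    refine e1.trans (Nat.add_le_add_left ?_ _)
    have e2 : S3 (fun x y z => if E x y z ≠ Rf (g x) (g y) (g z) then 1 else 0) =
        ((univ : Finset (V × V × V)).filter fun t =>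
          E t.1 t.2.1 t.2.2 ≠ Rf (g t.1) (g t.2.1) (g t.2.2)).card := by
      unfold S3
      rw [card_filter, Fintype.sum_prod_type]
      refine sum_congr rfl fun a _ => ?_
      rw [Fintype.sum_prod_type]
    rw [e2]
    unfold bad
    refine card_le_card_of_injOn (fun p => ![p.1, p.2.1, p.2.2]) ?_ ?_
    · intro p hp
      exact mem_coe.mpr (mem_filter.mpr ⟨mem_univ _, (mem_filter.mp (mem_coe.mp hp)).2⟩)
    · rintro ⟨a, b, c⟩ _ ⟨a', b', c'⟩ _ hh
      have k0 : a = a' := congrFun hh 0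
      have k1 : b = b' := congrFun hh 1
      have k2 : c = c' := congrFun hh 2
      rw [k0, k1, k2]
  rw [S3_R] at h1
  have h2 := h.low
  set n := Fintype.card V with hn'
  have h3 : 10 ^ 9 * n ^ 2 ≤ n ^ 3 := by
    calc 10 ^ 9 * n ^ 2 ≤ n * n ^ 2 := Nat.mul_le_mul_right _ (by omega)
      _ = n ^ 3 := by ring
  have h4 := part_sizes (Pt_add g) (by omega) (n := n) (by
    generalize P3 (Pt g 0).card (Pt g 1).card (Pt g 2).card = P at h1 ⊢
    generalize n ^ 3 = W at *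
    generalize n ^ 2 = Z at *
    omega)
  obtain ⟨a1, a2, a3, a4, a5, a6⟩ := h4
  fin_cases k
  exacts [⟨a1, a2⟩, ⟨a3, a4⟩, ⟨a5, a6⟩]

end
end Pool.Agent.Run7.h211.EY
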